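import Mathlib
import Pool.Agent.R860.HD.Harnack

/-!
# Harnack's inequality in a round annulus, with a logarithmic loss
-/

set_option autoImplicit false

namespace Pool.Agent.L7h54.HN

open InnerProductSpace Metric Set Complex Topology
open Pool.Agent.R860.HD

/-- Two points of the closed ball of radius `ρ`, one at distance at most `ρ - 1` from the centre, the other one
at distance at most `ρ - 1/2`. -/
theorem harnack_pair {U : ℂ → ℝ} {p ζ ω : ℂ} {ρ : ℝ} (hρ : 1 ≤ ρ)
    (hU : HarmonicOnNhd U (closedBall p ρ)) (h0 : ∀ z ∈ closedBall p ρ, 0 ≤ U z)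
    (hζ : ‖ζ - p‖ ≤ ρ - 1) (hω : ‖ω - p‖ ≤ ρ - 1 / 2) : U ζ ≤ 8 * ρ ^ 2 * U ω := by
  have hρ0 : 0 < ρ := by linarith
  have hζb : ζ ∈ ball p ρ := by rw [mem_ball, dist_eq_norm]; linarith
  have hωb : ω ∈ ball p ρ := by rw [mem_ball, dist_eq_norm]; linarith
  have h1 := harnack_upper hρ0 hU h0 hζb
  have h2 := harnack_lower hρ0 hU h0 hωb
  have hp : 0 ≤ U p := h0 p (mem_closedBall_self hρ0.le)
  have hn1 := norm_nonneg (ζ - p)
  have hn2 := norm_nonneg (ω - p)
  have h3 : U ζ ≤ 2 * ρ * U p := by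
    refine h1.trans (mul_le_mul_of_nonneg_right ?_ hp)
    rw [div_le_iff₀ (by linarith)]
    nlinarith
  have h4 : 1 / (4 * ρ) * U p ≤ U ω := by
    refine (mul_le_mul_of_nonneg_right ?_ hp).trans h2
    rw [div_le_div_iff₀ (by positivity) (by linarith)]
    nlinarith
  have h5 : U p ≤ 4 * ρ * U ω := by
    have := mul_le_mul_of_nonneg_left h4 (by positivity : (0:ℝ) ≤ 4 * ρ)
    rw [← mul_assoc, mul_one_div_cancel (by positivity), one_mul] at this
    exact this
  nlinarith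

/-- Harnack in an annulus: if `u ≥ 0` is harmonic in `s < |z - c| < s e^{2ρ+2}`, `ρ ≥ 11`, then the values at
two points of `s e² ≤ |z - c| ≤ s e^{2ρ}` are comparable up to the factor `8 ρ²`. -/
theorem harnack_annulus {u : ℂ → ℝ} {c z w : ℂ} {s ρ : ℝ} (hs : 0 < s) (hρ : 11 ≤ ρ)
    (hu : ∀ z, s < ‖z - c‖ → ‖z - c‖ < s * Real.exp (2 * ρ + 2) → HarmonicAt u z)
    (h0 : ∀ z, s < ‖z - c‖ → ‖z - c‖ < s * Real.exp (2 * ρ + 2) → 0 ≤ u z)
    (hz1 : s * Real.exp 2 ≤ ‖z - c‖) (hz2 : ‖z - c‖ ≤ s * Real.exp (2 * ρ))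
    (hw1 : s * Real.exp 2 ≤ ‖w - c‖) (hw2 : ‖w - c‖ ≤ s * Real.exp (2 * ρ)) :
    u z ≤ 8 * ρ ^ 2 * u w := by
  have he2 : (0:ℝ) < Real.exp 2 := Real.exp_pos 2
  have hzpos : 0 < ‖z - c‖ := lt_of_lt_of_le (by positivity) hz1
  have hwpos : 0 < ‖w - c‖ := lt_of_lt_of_le (by positivity) hw1
  have hz0 : z - c ≠ 0 := norm_pos_iff.1 hzpos
  have hw0 : w - c ≠ 0 := norm_pos_iff.1 hwpos
  have hq0 : (w - c) / (z - c) ≠ 0 := div_ne_zero hw0 hz0
  have hR : ∀ v : ℂ, s * Real.exp 2 ≤ ‖v - c‖ → ‖v - c‖ ≤ s * Real.exp (2 * ρ) →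
      |Real.log ‖v - c‖ - (Real.log s + ρ + 1)| ≤ ρ - 1 := by
    intro v h1 h2
    have hv : 0 < ‖v - c‖ := lt_of_lt_of_le (by positivity) h1
    have h3 : Real.log s + 2 ≤ Real.log ‖v - c‖ := by
      rw [← Real.log_exp 2, ← Real.log_mul hs.ne' he2.ne']
      exact Real.log_le_log (by positivity) h1
    have h4 : Real.log ‖v - c‖ ≤ Real.log s + 2 * ρ := by
      rw [← Real.log_exp (2 * ρ), ← Real.log_mul hs.ne' (Real.exp_pos _).ne']
      exact Real.log_le_log hv h2
    rw [abs_le]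
    constructor <;> linarith
  set ζ : ℂ := Complex.log (z - c) with hζ
  set ω : ℂ := ζ + Complex.log ((w - c) / (z - c)) with hω
  set p : ℂ := ((Real.log s + ρ + 1 : ℝ) : ℂ) + (ζ.im : ℂ) * I with hp
  have eζ : Complex.exp ζ = z - c := Complex.exp_log hz0
  have eω : Complex.exp ω = w - c := by
    rw [hω, Complex.exp_add, eζ, Complex.exp_log hq0]
    field_simp
  have hpre : p.re = Real.log s + ρ + 1 := by simp [hp]
  have hpim : p.im = ζ.im := by simp [hp]
  have reζ : ζ.re = Real.log ‖z - c‖ := Complex.log_re _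
  have reω : ω.re = Real.log ‖w - c‖ := by
    rw [hω, Complex.add_re, reζ, Complex.log_re ((w - c) / (z - c)), norm_div,
      Real.log_div hwpos.ne' hzpos.ne']
    ring
  have imω : ω.im = ζ.im + ((w - c) / (z - c)).arg := by
    rw [hω, Complex.add_im, Complex.log_im ((w - c) / (z - c))]
  have h1 := harnack_pair (U := fun ξ => u (c + Complex.exp ξ)) (p := p) (ζ := ζ) (ω := ω)
    (ρ := ρ) (by linarith) ?_ ?_ ?_ ?_
  · have e1 : c + Complex.exp ζ = z := by rw [eζ]; ring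
    have e2 : c + Complex.exp ω = w := by rw [eω]; ring
    simp only [e1, e2] at h1
    exact h1
  · intro ξ hξ
    have h2 : |ξ.re - p.re| ≤ ρ := by
      have h3 := Complex.abs_re_le_norm (ξ - p)
      rw [Complex.sub_re] at h3
      rw [mem_closedBall, dist_eq_norm] at hξ
      exact h3.trans hξ
    rw [hpre, abs_le] at h2
    have h3 : ‖c + Complex.exp ξ - c‖ = Real.exp ξ.re := by
      rw [add_sub_cancel_left, Complex.norm_exp]
    have h4 : s < Real.exp ξ.re := by
      calc s = Real.exp (Real.log s) := (Real.exp_log hs).symm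
        _ < Real.exp ξ.re := Real.exp_lt_exp.2 (by linarith)
    have h5 : Real.exp ξ.re < s * Real.exp (2 * ρ + 2) := by
      calc Real.exp ξ.re < Real.exp (Real.log s + (2 * ρ + 2)) := Real.exp_lt_exp.2 (by linarith)
        _ = s * Real.exp (2 * ρ + 2) := by rw [Real.exp_add, Real.exp_log hs]
    have hh := hu (c + Complex.exp ξ) (by rw [h3]; exact h4) (by rw [h3]; exact h5)
    exact harmonic_comp (g := fun ξ => c + Complex.exp ξ) hh (by fun_prop)
  · intro ξ hξ
    have h2 : |ξ.re - p.re| ≤ ρ := by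
      have h3 := Complex.abs_re_le_norm (ξ - p)
      rw [Complex.sub_re] at h3
      rw [mem_closedBall, dist_eq_norm] at hξ
      exact h3.trans hξ
    rw [hpre, abs_le] at h2
    have h3 : ‖c + Complex.exp ξ - c‖ = Real.exp ξ.re := by
      rw [add_sub_cancel_left, Complex.norm_exp]
    have h4 : s < Real.exp ξ.re := by
      calc s = Real.exp (Real.log s) := (Real.exp_log hs).symm
        _ < Real.exp ξ.re := Real.exp_lt_exp.2 (by linarith)
    have h5 : Real.exp ξ.re < s * Real.exp (2 * ρ + 2) := by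
      calc Real.exp ξ.re < Real.exp (Real.log s + (2 * ρ + 2)) := Real.exp_lt_exp.2 (by linarith)
        _ = s * Real.exp (2 * ρ + 2) := by rw [Real.exp_add, Real.exp_log hs]
    exact h0 (c + Complex.exp ξ) (by rw [h3]; exact h4) (by rw [h3]; exact h5)
  · have e1 : ζ - p = ((Real.log ‖z - c‖ - (Real.log s + ρ + 1) : ℝ) : ℂ) := by
      apply Complex.ext
      · rw [Complex.sub_re, hpre, reζ, Complex.ofReal_re]
      · rw [Complex.sub_im, hpim, sub_self, Complex.ofReal_im]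
    rw [e1, Complex.norm_real, Real.norm_eq_abs]
    exact hR z hz1 hz2
  · have h2 := hR w hw1 hw2
    have h3 : ‖ω - p‖ ^ 2 = (Real.log ‖w - c‖ - (Real.log s + ρ + 1)) ^ 2 +
        (((w - c) / (z - c)).arg) ^ 2 := by
      rw [← Complex.normSq_eq_norm_sq, Complex.normSq_apply, Complex.sub_re, Complex.sub_im, hpre,
        hpim, reω, imω]
      ring
    have h4 : (((w - c) / (z - c)).arg) ^ 2 ≤ 10 := by
      have h5 := Complex.abs_arg_le_pi ((w - c) / (z - c))
      have h6 := Real.pi_lt_d2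
      rw [← sq_abs]
      have h7 := abs_nonneg (((w - c) / (z - c)).arg)
      nlinarith [Real.pi_pos]
    have h5 : (Real.log ‖w - c‖ - (Real.log s + ρ + 1)) ^ 2 ≤ (ρ - 1) ^ 2 := by
      rw [← sq_abs]
      exact pow_le_pow_left₀ (abs_nonneg _) h2 2
    have h6 : ‖ω - p‖ ^ 2 ≤ (ρ - 1 / 2) ^ 2 := by
      rw [h3]
      nlinarith
    exact abs_le_of_sq_le_sq' h6 (by linarith) |>.2

end Pool.Agent.L7h54.HN
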