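import Mathlib

/-!
# A very thin Cantor set on the real line and integrals over rectangles around it
-/

set_option autoImplicit false

namespace Pool.Agent.L7h54.HN

open Metric Set Complex Topology MeasureTheory

/-- the lengths -/
noncomputable def d (n : ℕ) : ℝ := Real.exp (-(40 * (n : ℝ) ^ 2))

lemma d_pos (n : ℕ) : 0 < d n := Real.exp_pos _

lemma d_zero : d 0 = 1 := by simp [d]

lemma d_succ (n : ℕ) : d n = d (n + 1) * Real.exp (40 * (2 * n + 1)) := by
  unfold d
  rw [← Real.exp_add]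
  congr 1
  push_cast
  ring

lemma exp40 : (1000000 : ℝ) ≤ Real.exp 40 := by
  have h := Real.pow_div_factorial_le_exp (40 : ℝ) (by norm_num) 8
  refine le_trans ?_ h
  norm_num [Nat.factorial]

lemma d_succ_le (n : ℕ) : 1000000 * d (n + 1) ≤ d n := by
  rw [d_succ n, mul_comm]
  apply mul_le_mul_of_nonneg_left _ (d_pos _).le
  refine exp40.trans (Real.exp_le_exp.2 ?_)
  have : (0:ℝ) ≤ n := n.cast_nonneg
  linarith

lemma d_add_le (n i : ℕ) : d (n + i) ≤ d n * (1 / 2) ^ i := by
  induction i with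
  | zero => simp
  | succ i ih =>
    have h1 := d_succ_le (n + i)
    have h2 := d_pos (n + i)
    have h3 := d_pos (n + i + 1)
    rw [pow_succ, ← add_assoc]
    nlinarith

lemma d_le_one (n : ℕ) : d n ≤ 1 := by
  have := d_add_le 0 n
  rw [zero_add, d_zero, one_mul] at this
  exact this.trans (pow_le_one₀ (by norm_num) (by norm_num))

/-- the point of the tail of the Cantor set -/
noncomputable def T (n : ℕ) (ω : ℕ → Bool) : ℝ := ∑' i, if ω i then d (n + 1 + i) else 0

lemma term_nonneg (n : ℕ) (ω : ℕ → Bool) (i : ℕ) : 0 ≤ (if ω i then d (n + 1 + i) else 0) := by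
  split_ifs
  · exact (d_pos _).le
  · exact le_rfl

lemma term_le (n : ℕ) (ω : ℕ → Bool) (i : ℕ) :
    (if ω i then d (n + 1 + i) else 0) ≤ d (n + 1) * (1 / 2) ^ i := by
  split_ifs
  · exact d_add_le _ _
  · have := d_pos (n + 1)
    positivity

lemma summable_term (n : ℕ) (ω : ℕ → Bool) :
    Summable (fun i => if ω i then d (n + 1 + i) else 0) :=
  Summable.of_nonneg_of_le (term_nonneg n ω) (term_le n ω)
    ((summable_geometric_of_lt_one (by norm_num) (by norm_num)).mul_left _)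

lemma T_nonneg (n : ℕ) (ω : ℕ → Bool) : 0 ≤ T n ω := tsum_nonneg (term_nonneg n ω)

lemma T_le (n : ℕ) (ω : ℕ → Bool) : T n ω ≤ 2 * d (n + 1) := by
  have h := (summable_term n ω).tsum_le_tsum (term_le n ω)
    ((summable_geometric_of_lt_one (by norm_num) (by norm_num)).mul_left _)
  rw [tsum_mul_left, tsum_geometric_of_lt_one (by norm_num) (by norm_num)] at h
  unfold T
  linarith

lemma T_succ (n : ℕ) (ω : ℕ → Bool) :
    T n ω = (if ω 0 then d (n + 1) else 0) + T (n + 1) (fun i => ω (i + 1)) := by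
  unfold T
  rw [(summable_term n ω).tsum_eq_zero_add]
  simp only [add_zero]
  congr 1
  apply tsum_congr
  intro i
  rw [show n + 1 + (i + 1) = n + 1 + 1 + i by ring]

lemma continuous_T (n : ℕ) : Continuous (T n) := by
  apply continuous_tsum (u := fun i => d (n + 1) * (1 / 2) ^ i)
  · intro i
    have : (fun ω : ℕ → Bool => if ω i then d (n + 1 + i) else 0) =
      (fun b : Bool => if b then d (n + 1 + i) else 0) ∘ (fun ω : ℕ → Bool => ω i) := rfl
    rw [this]
    exact continuous_of_discreteTopology.comp (continuous_apply i)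
  · exact (summable_geometric_of_lt_one (by norm_num) (by norm_num)).mul_left _
  · intro i ω
    rw [Real.norm_eq_abs, abs_of_nonneg (term_nonneg n ω i)]
    exact term_le n ω i

/-- the tails of the Cantor set -/
def Tail (n : ℕ) : Set ℝ := range (T n)

lemma zero_mem_Tail (n : ℕ) : (0:ℝ) ∈ Tail n := ⟨fun _ => false, by simp [T]⟩

lemma mem_Tail_bounds {n : ℕ} {x : ℝ} (hx : x ∈ Tail n) : 0 ≤ x ∧ x ≤ 2 * d (n + 1) := by
  obtain ⟨ω, rfl⟩ := hx
  exact ⟨T_nonneg n ω, T_le n ω⟩

lemma mem_Tail_succ {n : ℕ} {x : ℝ} (hx : x ∈ Tail n) :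
    x ∈ Tail (n + 1) ∨ x - d (n + 1) ∈ Tail (n + 1) := by
  obtain ⟨ω, rfl⟩ := hx
  rw [T_succ]
  by_cases h : ω 0
  · right
    rw [if_pos h, add_sub_cancel_left]
    exact ⟨_, rfl⟩
  · left
    rw [if_neg h, zero_add]
    exact ⟨_, rfl⟩

lemma Tail_succ_subset {n : ℕ} {x : ℝ} (hx : x ∈ Tail (n + 1)) :
    x ∈ Tail n ∧ d (n + 1) + x ∈ Tail n := by
  obtain ⟨ω, rfl⟩ := hx
  constructor
  · refine ⟨fun i => Nat.casesOn i false ω, ?_⟩
    rw [T_succ]
    simp
  · refine ⟨fun i => Nat.casesOn i true ω, ?_⟩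
    rw [T_succ]
    simp

lemma isCompact_Tail (n : ℕ) : IsCompact (Tail n) := isCompact_range (continuous_T n)

/-- the Cantor set in the plane -/
def E : Set ℂ := (fun x : ℝ => (x : ℂ)) '' Tail 0

lemma mem_E {z : ℂ} : z ∈ E ↔ z.im = 0 ∧ z.re ∈ Tail 0 := by
  constructor
  · rintro ⟨x, hx, rfl⟩
    exact ⟨by simp, by simpa using hx⟩
  · rintro ⟨h1, h2⟩
    exact ⟨z.re, h2, by apply Complex.ext <;> simp [h1]⟩

lemma isCompact_E : IsCompact E := (isCompact_Tail 0).image Complex.continuous_ofReal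

lemma isOpen_compl_E : IsOpen (Eᶜ) := isCompact_E.isClosed.isOpen_compl

/-- the centres of level `n` -/
def S : ℕ → Set ℝ
  | 0 => {0}
  | n + 1 => {c' | ∃ c ∈ S n, c' = c ∨ c' = c + d (n + 1)}

lemma S_sub {n : ℕ} : ∀ {c : ℝ}, c ∈ S n → ∀ x ∈ Tail n, c + x ∈ Tail 0 := by
  induction n with
  | zero =>
    rintro c hc x hx
    rw [S, mem_singleton_iff] at hc
    rw [hc, zero_add]; exact hx
  | succ n ih =>
    rintro c' ⟨c, hc, rfl | rfl⟩ x hx
    · exact ih hc x (Tail_succ_subset hx).1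
    · rw [add_assoc]
      exact ih hc _ (Tail_succ_subset hx).2

lemma S_mem {n : ℕ} {c : ℝ} (hc : c ∈ S n) : c ∈ Tail 0 := by
  have := S_sub hc 0 (zero_mem_Tail n)
  rwa [add_zero] at this

lemma S_good {n : ℕ} : ∀ {c : ℝ}, c ∈ S n → ∀ x ∈ Tail 0, |x - c| < d n / 2 → x - c ∈ Tail n := by
  induction n with
  | zero =>
    rintro c hc x hx -
    rw [S, mem_singleton_iff] at hc
    rw [hc, sub_zero]; exact hx
  | succ n ih =>
    have h1 := d_succ_le n
    have h2 := d_succ_le (n + 1)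
    have h3 := d_pos (n + 1)
    have h4 := d_pos (n + 2)
    rintro c' ⟨c, hc, rfl | rfl⟩ x hx hd
    · rw [abs_lt] at hd
      have h5 := ih hc x hx (by rw [abs_lt]; constructor <;> linarith [hd.1, hd.2])
      rcases mem_Tail_succ h5 with h | h
      · exact h
      · exfalso
        have := (mem_Tail_bounds h).1
        linarith [hd.2]
    · rw [abs_lt] at hd
      have h5 := ih hc x hx (by rw [abs_lt]; constructor <;> linarith [hd.1, hd.2])
      rcases mem_Tail_succ h5 with h | h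
      · exfalso
        have := (mem_Tail_bounds h).2
        linarith [hd.1]
      · rw [sub_add_eq_sub_sub]
        exact h

/-- the annulus around a centre of level `n` does not meet the Cantor set -/
lemma annulus_free {n : ℕ} {c : ℝ} (hc : c ∈ S n) {z : ℂ} (h1 : 2 * d (n + 1) < ‖z - c‖)
    (h2 : ‖z - c‖ < d n / 2) : z ∈ Eᶜ := by
  intro hz
  obtain ⟨h3, h4⟩ := mem_E.1 hz
  have h5 : ‖z - c‖ = |z.re - c| := by
    have : z - c = ((z.re - c : ℝ) : ℂ) := by apply Complex.ext <;> simp [h3]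
    rw [this, Complex.norm_real, Real.norm_eq_abs]
  rw [h5] at h1 h2
  have h6 := mem_Tail_bounds (S_good hc _ h4 h2)
  rw [abs_of_nonneg h6.1] at h1
  linarith [h6.2]

end Pool.Agent.L7h54.HN
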