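import Mathlib
import Pool.Agent.L7h54.HN.A
import Pool.Agent.L7h54.HN.B

/-!
# The growth of positive harmonic functions near the Cantor set
-/

set_option autoImplicit false

namespace Pool.Agent.L7h54.HN

open InnerProductSpace Metric Set Complex Topology
open Pool.Agent.R860.HD

/-- the number `ρ_n` -/
noncomputable def rho (n : ℕ) : ℝ := 20 * (2 * n + 1) - 1 - Real.log 2

lemma rho_ge (n : ℕ) : 11 ≤ rho n := by
  have h1 := Real.log_two_lt_d9
  have h2 : (0:ℝ) ≤ n := n.cast_nonneg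
  unfold rho
  linarith

lemma rho_le (n : ℕ) : rho n ≤ 20 * (2 * n + 1) := by
  have h1 := Real.log_two_gt_d9
  unfold rho
  linarith

lemma exp_rho (n : ℕ) : 2 * d (n + 1) * Real.exp (2 * rho n + 2) = d n / 2 := by
  have e : 2 * rho n + 2 = 40 * (2 * n + 1) + (-(Real.log 4)) := by
    have : Real.log 4 = 2 * Real.log 2 := by
      rw [show (4:ℝ) = 2 ^ 2 by norm_num, Real.log_pow]; norm_num
    unfold rho
    rw [this]; ring
  rw [e, Real.exp_add, Real.exp_neg, Real.exp_log (by norm_num), d_succ n]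
  ring

lemma exp_two_lt : Real.exp 2 < 8 := by
  have h := Real.exp_one_lt_d9
  have h0 := Real.exp_pos 1
  have : Real.exp 2 = Real.exp 1 * Real.exp 1 := by rw [← Real.exp_add]; norm_num
  rw [this]
  nlinarith

/-- the data: a nonnegative harmonic function off the Cantor set -/
structure Pos (u : ℂ → ℝ) : Prop where
  harm : ∀ z ∈ Eᶜ, HarmonicAt u z
  nonneg : ∀ z ∈ Eᶜ, 0 ≤ u z

lemma upper_mem {z : ℂ} (hz : 0 < z.im) : z ∈ Eᶜ := fun h => hz.ne' (mem_E.1 h).1

/-- one step inside an annulus -/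
lemma step_annulus {u : ℂ → ℝ} (hu : Pos u) {n : ℕ} {c : ℝ} (hc : c ∈ S n) {z w : ℂ}
    (hz1 : 20 * d (n + 1) ≤ ‖z - c‖) (hz2 : ‖z - c‖ ≤ d n / 20)
    (hw1 : 20 * d (n + 1) ≤ ‖w - c‖) (hw2 : ‖w - c‖ ≤ d n / 20) :
    u z ≤ 3200 * (2 * n + 1) ^ 2 * u w := by
  have hd := d_pos (n + 1)
  have hd' := d_pos n
  have he := exp_two_lt
  have he0 := Real.exp_pos 2
  have h1 : 2 * d (n + 1) * Real.exp 2 ≤ 20 * d (n + 1) := by nlinarith
  have h2 : d n / 20 ≤ 2 * d (n + 1) * Real.exp (2 * rho n) := by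
    have := exp_rho n
    rw [Real.exp_add] at this
    have h3 : 2 * d (n + 1) * Real.exp (2 * rho n) = d n / 2 / Real.exp 2 := by
      rw [eq_div_iff he0.ne']; linarith
    rw [h3, le_div_iff₀ he0]
    nlinarith
  have h3 := harnack_annulus (u := u) (c := (c : ℂ)) (z := z) (w := w) (s := 2 * d (n + 1))
    (ρ := rho n) (by positivity) (rho_ge n)
    (fun z h1 h2 => hu.harm z (annulus_free hc h1 (by rwa [exp_rho] at h2)))
    (fun z h1 h2 => hu.nonneg z (annulus_free hc h1 (by rwa [exp_rho] at h2)))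
    (h1.trans hz1) (hz2.trans h2) (h1.trans hw1) (hw2.trans h2)
  refine h3.trans ?_
  have h4 : 0 ≤ u w := by
    apply hu.nonneg
    apply annulus_free hc (by linarith) (by linarith)
  apply mul_le_mul_of_nonneg_right _ h4
  have h5 := rho_le n
  have h6 := rho_ge n
  have h7 : rho n ^ 2 ≤ (20 * (2 * (n:ℝ) + 1)) ^ 2 := pow_le_pow_left₀ (by linarith) h5 2
  nlinarith

/-- one step between consecutive levels -/
lemma step_level {u : ℂ → ℝ} (hu : Pos u) {c c' D : ℝ} (hD : 0 < D)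
    (hc : c' = c ∨ c' = c + D) :
    u (c' + ((D / 20 : ℝ) : ℂ) * I) ≤ 4000 * u (c + ((20 * D : ℝ) : ℂ) * I) := by
  set p : ℂ := c' + ((21 * D : ℝ) : ℂ) * I with hp
  set w : ℂ := c' + ((D / 20 : ℝ) : ℂ) * I with hw
  set z : ℂ := c + ((20 * D : ℝ) : ℂ) * I with hz
  have hR : 0 < 21 * D - D / 40 := by linarith
  have him : ∀ ξ ∈ closedBall p (21 * D - D / 40), 0 < ξ.im := by
    intro ξ hξ
    rw [mem_closedBall, dist_eq_norm] at hξ
    have h1 := (Complex.abs_im_le_norm (ξ - p)).trans hξ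
    have h2 : p.im = 21 * D := by simp [hp]
    rw [Complex.sub_im, h2, abs_le] at h1
    linarith [h1.1]
  have hharm : HarmonicOnNhd u (closedBall p (21 * D - D / 40)) :=
    fun ξ hξ => hu.harm ξ (upper_mem (him ξ hξ))
  have hnn : ∀ ξ ∈ closedBall p (21 * D - D / 40), 0 ≤ u ξ :=
    fun ξ hξ => hu.nonneg ξ (upper_mem (him ξ hξ))
  have hdw : ‖w - p‖ = 21 * D - D / 20 := by
    have : w - p = ((-(21 * D - D / 20) : ℝ) : ℂ) * I := by
      rw [hw, hp]; push_cast; ring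
    rw [this, norm_mul, Complex.norm_I, mul_one, Complex.norm_real, Real.norm_eq_abs, abs_neg,
      abs_of_pos (by linarith)]
  have hdz : ‖z - p‖ ≤ 2 * D := by
    have e : z - p = ((c - c' : ℝ) : ℂ) + ((-D : ℝ) : ℂ) * I := by
      rw [hz, hp]; push_cast; ring
    rw [e]
    refine (norm_add_le _ _).trans ?_
    rw [norm_mul, Complex.norm_I, mul_one, Complex.norm_real, Complex.norm_real, Real.norm_eq_abs,
      Real.norm_eq_abs, abs_neg, abs_of_pos hD]
    rcases hc with h | h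
    · rw [h, sub_self, abs_zero]; linarith
    · rw [h, sub_add_cancel_left, abs_neg, abs_of_pos hD]; linarith
  have hwb : w ∈ ball p (21 * D - D / 40) := by rw [mem_ball, dist_eq_norm, hdw]; linarith
  have hzb : z ∈ ball p (21 * D - D / 40) := by
    rw [mem_ball, dist_eq_norm]
    exact hdz.trans_lt (by linarith)
  have h1 := harnack_upper hR hharm hnn hwb
  have h2 := harnack_lower hR hharm hnn hzb
  have hp0 : 0 ≤ u p := hnn p (mem_closedBall_self hR.le)
  have hn := norm_nonneg (z - p)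
  have h3 : u w ≤ 1680 * u p := by
    refine h1.trans (mul_le_mul_of_nonneg_right ?_ hp0)
    rw [hdw, div_le_iff₀ (by linarith)]
    linarith
  have h4 : 1 / 2 * u p ≤ u z := by
    refine (mul_le_mul_of_nonneg_right ?_ hp0).trans h2
    rw [le_div_iff₀ (by linarith)]
    linarith
  have h5 : 0 ≤ u z := hnn z (ball_subset_closedBall hzb)
  linarith

lemma num_bound (n : ℕ) :
    3200 * (2 * ((n + 1 : ℕ) : ℝ) + 1) ^ 2 * 4000 ≤ Real.exp (20 * (2 * n + 3)) := by
  have hn : (0:ℝ) ≤ n := n.cast_nonneg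
  have h := Real.pow_div_factorial_le_exp (20 * (2 * (n:ℝ) + 3)) (by positivity) 8
  refine le_trans ?_ h
  rw [le_div_iff₀ (by positivity)]
  have e : (2 * ((n + 1 : ℕ) : ℝ) + 1) = 2 * n + 3 := by push_cast; ring
  rw [e]
  have h3 : (729:ℝ) ≤ (2 * n + 3) ^ 6 := by
    calc (729:ℝ) = 3 ^ 6 := by norm_num
      _ ≤ (2 * n + 3) ^ 6 := pow_le_pow_left₀ (by norm_num) (by linarith) 6
  have h4 : (20 * (2 * (n:ℝ) + 3)) ^ 8 = 20 ^ 8 * ((2 * n + 3) ^ 2 * (2 * n + 3) ^ 6) := by ring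
  rw [h4]
  have h5 : (0:ℝ) ≤ (2 * n + 3) ^ 2 := by positivity
  norm_num [Nat.factorial]
  nlinarith

/-- The growth bound. -/
theorem growth {u : ℂ → ℝ} (hu : Pos u) {n : ℕ} : ∀ {c : ℝ}, c ∈ S n → ∀ z : ℂ,
    20 * d (n + 1) ≤ ‖z - c‖ → ‖z - c‖ ≤ d n / 20 →
    u z ≤ Real.exp (20 * (n + 1) ^ 2) * u (((1 / 20 : ℝ) : ℂ) * I) := by
  induction n with
  | zero =>
    rintro c hc z h1 h2
    rw [S, mem_singleton_iff] at hc
    have hd := d_succ_le 0
    rw [d_zero] at hd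
    have e : ‖((1 / 20 : ℝ) : ℂ) * I - (c : ℂ)‖ = 1 / 20 := by
      rw [hc, Complex.ofReal_zero, sub_zero, norm_mul, Complex.norm_I, mul_one, Complex.norm_real,
        Real.norm_eq_abs, abs_of_pos (by norm_num)]
    have h3 := step_annulus hu (n := 0) (c := c) (by rw [hc]; rfl) h1 h2
      (w := ((1 / 20 : ℝ) : ℂ) * I) (by rw [e]; linarith) (by rw [e, d_zero])
    refine h3.trans ?_
    have h4 : 0 ≤ u (((1 / 20 : ℝ) : ℂ) * I) := hu.nonneg _ (upper_mem (by simp))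
    apply mul_le_mul_of_nonneg_right _ h4
    have h5 := Real.pow_div_factorial_le_exp (20 : ℝ) (by norm_num) 4
    norm_num [Nat.factorial] at h5 ⊢
    linarith
  | succ n ih =>
    rintro c' ⟨c, hc, hcc⟩ z h1 h2
    have hd1 := d_succ_le n
    have hd2 := d_succ_le (n + 1)
    have hp1 := d_pos (n + 1)
    have hp2 := d_pos (n + 2)
    have hc' : c' ∈ S (n + 1) := ⟨c, hc, hcc⟩
    have e1 : ‖(c' : ℂ) + ((d (n + 1) / 20 : ℝ) : ℂ) * I - c'‖ = d (n + 1) / 20 := by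
      rw [add_sub_cancel_left, norm_mul, Complex.norm_I, mul_one, Complex.norm_real,
        Real.norm_eq_abs, abs_of_pos (by linarith)]
    have e2 : ‖(c : ℂ) + ((20 * d (n + 1) : ℝ) : ℂ) * I - c‖ = 20 * d (n + 1) := by
      rw [add_sub_cancel_left, norm_mul, Complex.norm_I, mul_one, Complex.norm_real,
        Real.norm_eq_abs, abs_of_pos (by linarith)]
    have h3 := step_annulus hu hc' h1 h2
      (w := (c' : ℂ) + ((d (n + 1) / 20 : ℝ) : ℂ) * I) (by rw [e1]; linarith) (by rw [e1])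
    have h4 := step_level hu (c := c) (c' := c') hp1 hcc
    have h5 := ih hc ((c : ℂ) + ((20 * d (n + 1) : ℝ) : ℂ) * I) (by rw [e2]) (by rw [e2]; linarith)
    have h6 : 0 ≤ u (((1 / 20 : ℝ) : ℂ) * I) := hu.nonneg _ (upper_mem (by simp))
    have h7 := num_bound n
    have h8 : (0:ℝ) ≤ 3200 * (2 * ((n + 1 : ℕ) : ℝ) + 1) ^ 2 := by positivity
    have e3 : Real.exp (20 * (((n + 1 : ℕ) : ℝ) + 1) ^ 2) =
        Real.exp (20 * (2 * n + 3)) * Real.exp (20 * ((n:ℝ) + 1) ^ 2) := by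
      rw [← Real.exp_add]; congr 1; push_cast; ring
    rw [e3]
    calc u z ≤ 3200 * (2 * ((n + 1 : ℕ) : ℝ) + 1) ^ 2 *
          u ((c' : ℂ) + ((d (n + 1) / 20 : ℝ) : ℂ) * I) := h3
      _ ≤ 3200 * (2 * ((n + 1 : ℕ) : ℝ) + 1) ^ 2 *
          (4000 * (Real.exp (20 * ((n:ℝ) + 1) ^ 2) * u (((1 / 20 : ℝ) : ℂ) * I))) := by
          apply mul_le_mul_of_nonneg_left _ h8
          exact h4.trans (mul_le_mul_of_nonneg_left h5 (by norm_num))
      _ = (3200 * (2 * ((n + 1 : ℕ) : ℝ) + 1) ^ 2 * 4000) *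
          (Real.exp (20 * ((n:ℝ) + 1) ^ 2) * u (((1 / 20 : ℝ) : ℂ) * I)) := by ring
      _ ≤ Real.exp (20 * (2 * n + 3)) *
          (Real.exp (20 * ((n:ℝ) + 1) ^ 2) * u (((1 / 20 : ℝ) : ℂ) * I)) := by
          apply mul_le_mul_of_nonneg_right h7
          positivity
      _ = _ := by ring

/-- The growth at infinity. -/
theorem growth_infty {u : ℂ → ℝ} (hu : Pos u) {z : ℂ} {R : ℝ} (hR : Real.exp 24 ≤ R)
    (h1 : R ≤ ‖z‖) (h2 : ‖z‖ ≤ 2 * R) :
    u z ≤ 8 * (Real.log R) ^ 2 * u (8 * I) := by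
  have hR0 : 0 < R := (Real.exp_pos _).trans_le hR
  have hlog : 24 ≤ Real.log R := by
    rw [← Real.log_exp 24]
    exact Real.log_le_log (Real.exp_pos _) hR
  have hd := d_succ_le 0
  rw [d_zero] at hd
  have hfree : ∀ ξ : ℂ, 1 < ‖ξ - 0‖ → ξ ∈ Eᶜ := by
    intro ξ hξ hE
    obtain ⟨h3, h4⟩ := mem_E.1 hE
    have h5 := mem_Tail_bounds h4
    have : ξ = ((ξ.re : ℝ) : ℂ) := by apply Complex.ext <;> simp [h3]
    rw [sub_zero, this, Complex.norm_real, Real.norm_eq_abs, abs_of_nonneg h5.1] at hξ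
    have := d_pos 1
    rw [zero_add] at h5 hd
    linarith [h5.2]
  have he := exp_two_lt
  have h3 := harnack_annulus (u := u) (c := 0) (z := z) (w := 8 * I) (s := 1)
    (ρ := Real.log R) one_pos (by linarith)
    (fun z h1 _ => hu.harm z (hfree z h1)) (fun z h1 _ => hu.nonneg z (hfree z h1))
  have e : Real.exp (2 * Real.log R) = R * R := by
    rw [two_mul, Real.exp_add, Real.exp_log hR0]
  have hR8 : (8:ℝ) ≤ R := by
    refine le_trans ?_ hR
    have := Real.add_one_le_exp (24:ℝ)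
    linarith
  rw [sub_zero, sub_zero, one_mul, one_mul, e] at h3
  have e8 : ‖(8:ℂ) * I‖ = 8 := by simp
  apply h3
  · linarith
  · nlinarith
  · rw [e8]; linarith
  · rw [e8]; nlinarith

end Pool.Agent.L7h54.HN
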