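import Mathlib
import Pool.Agent.L7h54.HN.B

/-!
# Integrals over rectangles around the Cantor set
-/

set_option autoImplicit false

namespace Pool.Agent.L7h54.HN

open Metric Set Complex Topology MeasureTheory intervalIntegral

/-- the integral over the boundary of the rectangle `[a,b] × [h,k]` -/
noncomputable def RI (F : ℂ → ℂ) (a b h k : ℝ) : ℂ :=
  (((∫ x : ℝ in a..b, F (x + h * I)) - ∫ x : ℝ in a..b, F (x + k * I)) +
    I • ∫ y : ℝ in h..k, F (b + y * I)) - I • ∫ y : ℝ in h..k, F (a + y * I)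

lemma off_line {x y : ℝ} (hy : y ≠ 0) : (x + y * I : ℂ) ∈ Eᶜ := by
  intro h
  apply hy
  have := (mem_E.1 h).1
  simpa using this

lemma cont_h {F : ℂ → ℂ} (hF : ContinuousOn F Eᶜ) {h : ℝ} (hh : h ≠ 0) :
    Continuous (fun x : ℝ => F (x + h * I)) := by
  have h1 : Continuous (fun x : ℝ => (x + h * I : ℂ)) := by fun_prop
  exact hF.comp_continuous h1 (fun x => off_line hh)

lemma cont_v {F : ℂ → ℂ} (hF : ContinuousOn F Eᶜ) {a : ℝ} (ha : a ∉ Tail 0) :
    Continuous (fun y : ℝ => F (a + y * I)) := by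
  have h1 : Continuous (fun y : ℝ => (a + y * I : ℂ)) := by fun_prop
  refine hF.comp_continuous h1 (fun y h => ha ?_)
  have := (mem_E.1 h).2
  simpa using this

lemma RI_add {F : ℂ → ℂ} (hF : ContinuousOn F Eᶜ) {a b c h k : ℝ} (hh : h < 0) (hk : 0 < k) :
    RI F a b h k + RI F b c h k = RI F a c h k := by
  unfold RI
  have i1 := cont_h hF hh.ne
  have i2 := cont_h hF hk.ne'
  rw [← integral_add_adjacent_intervals (i1.intervalIntegrable a b) (i1.intervalIntegrable b c),
    ← integral_add_adjacent_intervals (i2.intervalIntegrable a b) (i2.intervalIntegrable b c)]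
  ring

lemma RI_free {F : ℂ → ℂ} (hF : DifferentiableOn ℂ F Eᶜ) {a b h k : ℝ}
    (hfree : ∀ x ∈ uIcc a b, x ∉ Tail 0) : RI F a b h k = 0 := by
  have := Complex.integral_boundary_rect_eq_zero_of_differentiableOn F ⟨a, h⟩ ⟨b, k⟩ (by
    apply hF.mono
    intro z hz hzE
    exact hfree _ hz.1 (mem_E.1 hzE).2)
  exact this

lemma RI_free' {F : ℂ → ℂ} (hF : DifferentiableOn ℂ F Eᶜ) {a b h k : ℝ}
    (hfree : ∀ y ∈ uIcc h k, y ≠ 0) : RI F a b h k = 0 := by
  have := Complex.integral_boundary_rect_eq_zero_of_differentiableOn F ⟨a, h⟩ ⟨b, k⟩ (by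
    apply hF.mono
    intro z hz hzE
    exact hfree _ hz.2 (mem_E.1 hzE).1)
  exact this

lemma RI_shrink {F : ℂ → ℂ} (hF : DifferentiableOn ℂ F Eᶜ) {a b h k h' k' : ℝ}
    (ha : a ∉ Tail 0) (hb : b ∉ Tail 0) (h1 : h ≤ h') (h2 : h' < 0) (h3 : 0 < k') (h4 : k' ≤ k) :
    RI F a b h k = RI F a b h' k' := by
  have e1 : RI F a b h h' = 0 := RI_free' hF (by
    intro y hy
    rw [uIcc_of_le h1] at hy
    exact (lt_of_le_of_lt hy.2 h2).ne)
  have e2 : RI F a b k' k = 0 := RI_free' hF (by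
    intro y hy
    rw [uIcc_of_le h4] at hy
    exact (lt_of_lt_of_le h3 hy.1).ne')
  have i1 := cont_v hF.continuousOn ha
  have i2 := cont_v hF.continuousOn hb
  have e3 : RI F a b h k = RI F a b h h' + RI F a b h' k' + RI F a b k' k := by
    unfold RI
    rw [← integral_add_adjacent_intervals (i1.intervalIntegrable h h') (i1.intervalIntegrable h' k),
      ← integral_add_adjacent_intervals (i1.intervalIntegrable h' k') (i1.intervalIntegrable k' k),
      ← integral_add_adjacent_intervals (i2.intervalIntegrable h h') (i2.intervalIntegrable h' k),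
      ← integral_add_adjacent_intervals (i2.intervalIntegrable h' k') (i2.intervalIntegrable k' k)]
    simp only [smul_add]
    ring
  rw [e3, e1, e2, zero_add, add_zero]

lemma RI_bound {F : ℂ → ℂ} {a b h k K : ℝ} (hab : a ≤ b) (hhk : h ≤ k)
    (h1 : ∀ x ∈ Icc a b, ‖F (x + h * I)‖ ≤ K ∧ ‖F (x + k * I)‖ ≤ K)
    (h2 : ∀ y ∈ Icc h k, ‖F (b + y * I)‖ ≤ K ∧ ‖F (a + y * I)‖ ≤ K) :
    ‖RI F a b h k‖ ≤ (2 * (b - a) + 2 * (k - h)) * K := by
  unfold RI
  have e1 : ‖∫ x : ℝ in a..b, F (x + h * I)‖ ≤ K * |b - a| :=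
    norm_integral_le_of_norm_le_const (fun x hx => (h1 x (by
      rw [uIoc_of_le hab] at hx; exact ⟨hx.1.le, hx.2⟩)).1)
  have e2 : ‖∫ x : ℝ in a..b, F (x + k * I)‖ ≤ K * |b - a| :=
    norm_integral_le_of_norm_le_const (fun x hx => (h1 x (by
      rw [uIoc_of_le hab] at hx; exact ⟨hx.1.le, hx.2⟩)).2)
  have e3 : ‖∫ y : ℝ in h..k, F (b + y * I)‖ ≤ K * |k - h| :=
    norm_integral_le_of_norm_le_const (fun x hx => (h2 x (by
      rw [uIoc_of_le hhk] at hx; exact ⟨hx.1.le, hx.2⟩)).1)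
  have e4 : ‖∫ y : ℝ in h..k, F (a + y * I)‖ ≤ K * |k - h| :=
    norm_integral_le_of_norm_le_const (fun x hx => (h2 x (by
      rw [uIoc_of_le hhk] at hx; exact ⟨hx.1.le, hx.2⟩)).2)
  rw [abs_of_nonneg (by linarith)] at e1 e2 e3 e4
  refine (norm_sub_le _ _).trans ?_
  refine (add_le_add (norm_add_le _ _) le_rfl).trans ?_
  refine (add_le_add (add_le_add (norm_sub_le _ _) le_rfl) le_rfl).trans ?_
  rw [norm_smul, norm_smul, Complex.norm_I, one_mul, one_mul]
  linarith

/-- half side of the squares of level `n` -/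
noncomputable def A (n : ℕ) : ℝ := 20 * d (n + 1)

lemma near {n : ℕ} {c : ℝ} (hc : c ∈ S n) {x : ℝ} (hx : x ∈ Tail 0) (h : |x - c| < d n / 2) :
    (0 ≤ x - c ∧ x - c ≤ 2 * d (n + 2)) ∨
      (d (n + 1) ≤ x - c ∧ x - c ≤ d (n + 1) + 2 * d (n + 2)) := by
  rcases mem_Tail_succ (S_good hc x hx h) with h1 | h1
  · left; exact mem_Tail_bounds h1
  · right
    have := mem_Tail_bounds h1
    constructor <;> linarith [this.1, this.2]

/-- the integral over the square of level `n` is the sum of the integrals over the two squares of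
level `n + 1` inside -/
lemma RI_split {F : ℂ → ℂ} (hF : DifferentiableOn ℂ F Eᶜ) {n : ℕ} {c : ℝ} (hc : c ∈ S n) :
    RI F (c - A n) (c + A n) (-A n) (A n) =
      RI F (c - A (n + 1)) (c + A (n + 1)) (-A (n + 1)) (A (n + 1)) +
      RI F (c + d (n + 1) - A (n + 1)) (c + d (n + 1) + A (n + 1)) (-A (n + 1)) (A (n + 1)) := by
  have hd1 := d_succ_le n
  have hd2 := d_succ_le (n + 1)
  have hp1 := d_pos (n + 1)
  have hp2 := d_pos (n + 2)
  have eA : A n = 20 * d (n + 1) := rfl
  have eA' : A (n + 1) = 20 * d (n + 2) := rfl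
  have hAn : -A n < 0 := by rw [eA]; linarith
  have hAp : 0 < A n := by rw [eA]; linarith
  have hA'n : -A (n + 1) < 0 := by rw [eA']; linarith
  have hA'p : 0 < A (n + 1) := by rw [eA']; linarith
  have hAA : A (n + 1) ≤ A n := by rw [eA, eA']; linarith
  have hcont := hF.continuousOn
  rw [← RI_add hcont (b := c - A (n + 1)) hAn hAp, ← RI_add hcont (a := c - A (n + 1))
    (b := c + A (n + 1)) hAn hAp, ← RI_add hcont (a := c + A (n + 1))
    (b := c + d (n + 1) - A (n + 1)) hAn hAp, ← RI_add hcont (a := c + d (n + 1) - A (n + 1))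
    (b := c + d (n + 1) + A (n + 1)) hAn hAp]
  have key : ∀ x : ℝ, |x - c| < d n / 2 → ¬ ((0 ≤ x - c ∧ x - c ≤ 2 * d (n + 2)) ∨
      (d (n + 1) ≤ x - c ∧ x - c ≤ d (n + 1) + 2 * d (n + 2))) → x ∉ Tail 0 :=
    fun x h1 h2 h3 => h2 (near hc h3 h1)
  have z1 : RI F (c - A n) (c - A (n + 1)) (-A n) (A n) = 0 := RI_free hF (by
    intro x hx
    rw [uIcc_of_le (by linarith)] at hx
    rw [eA, eA'] at hx
    apply key x
    · rw [abs_lt]; constructor <;> linarith [hx.1, hx.2]
    · rintro (h | h) <;> linarith [hx.1, hx.2, h.1])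
  have z2 : RI F (c + A (n + 1)) (c + d (n + 1) - A (n + 1)) (-A n) (A n) = 0 := RI_free hF (by
    intro x hx
    rw [uIcc_of_le (by rw [eA']; linarith)] at hx
    rw [eA'] at hx
    apply key x
    · rw [abs_lt]; constructor <;> linarith [hx.1, hx.2]
    · rintro (h | h) <;> linarith [hx.1, hx.2, h.1, h.2])
  have z3 : RI F (c + d (n + 1) + A (n + 1)) (c + A n) (-A n) (A n) = 0 := RI_free hF (by
    intro x hx
    rw [uIcc_of_le (by rw [eA, eA']; linarith)] at hx
    rw [eA, eA'] at hx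
    apply key x
    · rw [abs_lt]; constructor <;> linarith [hx.1, hx.2]
    · rintro (h | h) <;> linarith [hx.1, hx.2, h.1, h.2])
  have s1 : RI F (c - A (n + 1)) (c + A (n + 1)) (-A n) (A n) =
      RI F (c - A (n + 1)) (c + A (n + 1)) (-A (n + 1)) (A (n + 1)) := by
    apply RI_shrink hF _ _ (by linarith) hA'n hA'p hAA
    · apply key
      · rw [abs_lt, eA']; constructor <;> linarith
      · rw [eA']; rintro (h | h) <;> linarith [h.1, h.2]
    · apply key
      · rw [abs_lt, eA']; constructor <;> linarith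
      · rw [eA']; rintro (h | h) <;> linarith [h.1, h.2]
  have s2 : RI F (c + d (n + 1) - A (n + 1)) (c + d (n + 1) + A (n + 1)) (-A n) (A n) =
      RI F (c + d (n + 1) - A (n + 1)) (c + d (n + 1) + A (n + 1)) (-A (n + 1)) (A (n + 1)) := by
    apply RI_shrink hF _ _ (by linarith) hA'n hA'p hAA
    · apply key
      · rw [abs_lt, eA']; constructor <;> linarith
      · rw [eA']; rintro (h | h) <;> linarith [h.1, h.2]
    · apply key
      · rw [abs_lt, eA']; constructor <;> linarith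
      · rw [eA']; rintro (h | h) <;> linarith [h.1, h.2]
  rw [z1, z2, z3, s1, s2]
  ring

/-- all squares of level `n` together -/
lemma RI_levels {F : ℂ → ℂ} (hF : DifferentiableOn ℂ F Eᶜ) (n : ℕ) : ∀ K : ℝ,
    (∀ c ∈ S n, ‖RI F (c - A n) (c + A n) (-A n) (A n)‖ ≤ K) →
      ‖RI F (0 - A 0) (0 + A 0) (-A 0) (A 0)‖ ≤ 2 ^ n * K := by
  induction n with
  | zero =>
    intro K h
    rw [pow_zero, one_mul]
    exact h 0 rfl
  | succ n ih =>
    intro K h
    rw [pow_succ, mul_assoc]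
    apply ih
    intro c hc
    rw [RI_split hF hc, two_mul]
    refine (norm_add_le _ _).trans (add_le_add ?_ ?_)
    · exact h c ⟨c, hc, Or.inl rfl⟩
    · exact h _ ⟨c, hc, Or.inr rfl⟩

/-- the first step -/
lemma RI_outer {F : ℂ → ℂ} (hF : DifferentiableOn ℂ F Eᶜ) {R : ℝ} (hR : 1 ≤ R) :
    RI F (-R) R (-R) R = RI F (0 - A 0) (0 + A 0) (-A 0) (A 0) := by
  have hd := d_succ_le 0
  rw [d_zero] at hd
  have hp1 := d_pos 1
  rw [zero_add] at hd
  have eA : A 0 = 20 * d 1 := rfl
  have hA : 0 < A 0 := by rw [eA]; linarith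
  have hcont := hF.continuousOn
  have key : ∀ x : ℝ, ¬ (0 ≤ x ∧ x ≤ 2 * d 1) → x ∉ Tail 0 := fun x h h1 => h (mem_Tail_bounds h1)
  rw [← RI_add hcont (a := -R) (b := 0 - A 0) (c := R) (by linarith) (by linarith),
    ← RI_add hcont (a := 0 - A 0) (b := 0 + A 0) (c := R) (by linarith) (by linarith)]
  have z1 : RI F (-R) (0 - A 0) (-R) R = 0 := RI_free hF (by
    intro x hx
    rw [uIcc_of_le (by rw [eA]; linarith), eA] at hx
    exact key x (fun h => by linarith [hx.2, h.1]))
  have z2 : RI F (0 + A 0) R (-R) R = 0 := RI_free hF (by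
    intro x hx
    rw [uIcc_of_le (by rw [eA]; linarith), eA] at hx
    exact key x (fun h => by linarith [hx.1, h.2]))
  have s1 : RI F (0 - A 0) (0 + A 0) (-R) R = RI F (0 - A 0) (0 + A 0) (-A 0) (A 0) := by
    apply RI_shrink hF _ _ (by rw [eA]; linarith) (by linarith) hA (by rw [eA]; linarith)
    · exact key _ (fun h => by linarith [h.1])
    · exact key _ (fun h => by rw [eA] at h; linarith [h.2])
  rw [z1, z2, s1]
  ring

/-- linearity -/
lemma RI_comb {F G H : ℂ → ℂ} (hF : ContinuousOn F Eᶜ) (hG : ContinuousOn G Eᶜ)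
    (hH : ContinuousOn H Eᶜ) (κ : ℂ) {R : ℝ} (hR : 1 ≤ R) :
    RI (fun z => F z - G z + κ * H z) (-R) R (-R) R =
      RI F (-R) R (-R) R - RI G (-R) R (-R) R + κ * RI H (-R) R (-R) R := by
  have hd := d_succ_le 0
  rw [d_zero] at hd
  have hp1 := d_pos 1
  rw [zero_add] at hd
  have key : ∀ x : ℝ, ¬ (0 ≤ x ∧ x ≤ 2 * d 1) → x ∉ Tail 0 := fun x h h1 => h (mem_Tail_bounds h1)
  have k1 : R ∉ Tail 0 := key _ (fun h => by linarith [h.2])
  have k2 : -R ∉ Tail 0 := key _ (fun h => by linarith [h.1])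
  have gen : ∀ (f g h : ℝ → ℂ) (a b : ℝ), Continuous f → Continuous g → Continuous h →
      ∫ x in a..b, (f x - g x + κ * h x) =
        (∫ x in a..b, f x) - (∫ x in a..b, g x) + κ * ∫ x in a..b, h x := by
    intro f g h a b hf hg hh
    have j1 : IntervalIntegrable (fun x => f x - g x) volume a b :=
      (hf.sub hg).intervalIntegrable a b
    have j2 : IntervalIntegrable (fun x => κ * h x) volume a b :=
      (continuous_const.mul hh).intervalIntegrable a b
    rw [intervalIntegral.integral_add j1 j2,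
      intervalIntegral.integral_sub (hf.intervalIntegrable a b) (hg.intervalIntegrable a b),
      intervalIntegral.integral_const_mul]
  unfold RI
  rw [gen _ _ _ _ _ (cont_h hF (h := -R) (by linarith)) (cont_h hG (h := -R) (by linarith))
      (cont_h hH (h := -R) (by linarith)),
    gen _ _ _ _ _ (cont_h hF (h := R) (by linarith)) (cont_h hG (h := R) (by linarith))
      (cont_h hH (h := R) (by linarith)),
    gen _ _ _ _ _ (cont_v hF k1) (cont_v hG k1) (cont_v hH k1),
    gen _ _ _ _ _ (cont_v hF k2) (cont_v hG k2) (cont_v hH k2)]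
  simp only [smul_eq_mul]
  ring

end Pool.Agent.L7h54.HN
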