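import Mathlib
import Pool.Agent.L7h54.HN.C
import Pool.Agent.L7h54.HN.D

/-!
# The Hardy space of the complement of the Cantor set is trivial
-/

set_option autoImplicit false

namespace Pool.Agent.L7h54.HN

open InnerProductSpace Metric Set Complex Topology MeasureTheory Filter

lemma norm_ge_re (x y : ℝ) : |x| ≤ ‖(x + y * I : ℂ)‖ := by
  have := Complex.abs_re_le_norm (x + y * I : ℂ)
  simpa using this

lemma norm_ge_im (x y : ℝ) : |y| ≤ ‖(x + y * I : ℂ)‖ := by
  have := Complex.abs_im_le_norm (x + y * I : ℂ)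
  simpa using this

lemma norm_le_add (x y : ℝ) : ‖(x + y * I : ℂ)‖ ≤ |x| + |y| := by
  refine (norm_add_le _ _).trans ?_
  rw [norm_mul, Complex.norm_I, mul_one, Complex.norm_real, Complex.norm_real, Real.norm_eq_abs,
    Real.norm_eq_abs]

/-- a bound on the boundary of a centred square -/
lemma RI_square {F : ℂ → ℂ} {c r K : ℝ} (hr : 0 ≤ r)
    (h : ∀ z : ℂ, r ≤ ‖z - c‖ → ‖z - c‖ ≤ 2 * r → ‖F z‖ ≤ K) :
    ‖RI F (c - r) (c + r) (-r) r‖ ≤ 8 * r * K := by
  have h1 : ∀ x y : ℝ, |x - c| ≤ r → |y| ≤ r → (|x - c| = r ∨ |y| = r) → ‖F (x + y * I)‖ ≤ K := by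
    intro x y hx hy hxy
    have e : (x + y * I : ℂ) - c = ((x - c : ℝ) : ℂ) + (y : ℂ) * I := by push_cast; ring
    apply h
    · rw [e]
      rcases hxy with h | h
      · exact h ▸ norm_ge_re _ _
      · exact h ▸ norm_ge_im _ _
    · rw [e]
      have := norm_le_add (x - c) y
      linarith
  have h2 := RI_bound (F := F) (a := c - r) (b := c + r) (h := -r) (k := r) (K := K)
    (by linarith) (by linarith) ?_ ?_
  · refine h2.trans (le_of_eq ?_)
    ring
  · intro x hx
    have hx' : |x - c| ≤ r := by rw [abs_le]; constructor <;> linarith [hx.1, hx.2]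
    constructor
    · exact h1 x (-r) hx' (by rw [abs_neg, abs_of_nonneg hr]) (Or.inr (by rw [abs_neg, abs_of_nonneg hr]))
    · exact h1 x r hx' (by rw [abs_of_nonneg hr]) (Or.inr (by rw [abs_of_nonneg hr]))
  · intro y hy
    have hy' : |y| ≤ r := by rw [abs_le]; constructor <;> linarith [hy.1, hy.2]
    constructor
    · exact h1 (c + r) y (by rw [add_sub_cancel_left, abs_of_nonneg hr]) hy'
        (Or.inl (by rw [add_sub_cancel_left, abs_of_nonneg hr]))
    · exact h1 (c - r) y (by rw [sub_sub_cancel_left, abs_neg, abs_of_nonneg hr]) hy'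
        (Or.inl (by rw [sub_sub_cancel_left, abs_neg, abs_of_nonneg hr]))

lemma tendsto_small (C : ℝ) :
    Tendsto (fun n : ℕ => (2:ℝ) ^ n * (8 * A n * (C * Real.exp (20 * (n + 1) ^ 2)))) atTop (𝓝 0) := by
  have h1 : ∀ n : ℕ, (2:ℝ) ^ n * (8 * A n * (C * Real.exp (20 * (n + 1) ^ 2))) =
      160 * C * ((2:ℝ) ^ n * Real.exp (-(20 * ((n:ℝ) + 1) ^ 2))) := by
    intro n
    have : Real.exp (-(20 * ((n:ℝ) + 1) ^ 2)) = Real.exp (-(40 * (((n + 1 : ℕ) : ℝ)) ^ 2)) *
        Real.exp (20 * (n + 1) ^ 2) := by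
      rw [← Real.exp_add]; congr 1; push_cast; ring
    rw [this, A, d]
    ring
  simp_rw [h1]
  rw [show (0:ℝ) = 160 * C * 0 by ring]
  apply Tendsto.const_mul
  refine squeeze_zero (fun n => by positivity) (fun n => ?_)
    (tendsto_pow_atTop_nhds_zero_of_lt_one (r := 1/2) (by norm_num) (by norm_num))
  have h2 : Real.exp (-(20 * ((n:ℝ) + 1) ^ 2)) ≤ (1 / 4) ^ n := by
    have h3 : (1 / 4 : ℝ) ^ n = Real.exp (-(Real.log 4 * n)) := by
      rw [← Real.rpow_natCast, Real.rpow_def_of_pos (by norm_num), Real.log_div (by norm_num)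
        (by norm_num), Real.log_one, zero_sub, neg_mul]
    rw [h3]
    apply Real.exp_le_exp.2
    have h4 : Real.log 4 ≤ 3 := by
      have := Real.log_le_sub_one_of_pos (show (0:ℝ) < 4 by norm_num)
      linarith
    have hn : (0:ℝ) ≤ n := n.cast_nonneg
    nlinarith
  calc (2:ℝ) ^ n * Real.exp (-(20 * ((n:ℝ) + 1) ^ 2)) ≤ 2 ^ n * (1 / 4) ^ n := by gcongr
    _ = (1 / 2) ^ n := by rw [← mul_pow]; norm_num

/-- The integrals of the difference quotients vanish. -/
theorem RI_slope {f : ℂ → ℂ} {u : ℂ → ℝ} (hf : DifferentiableOn ℂ f Eᶜ) (hu : Pos u)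
    (hfu : ∀ z ∈ Eᶜ, ‖f z‖ ^ 2 ≤ u z) {z₀ : ℂ} (hz₀ : z₀ ∈ Eᶜ) {R : ℝ} (hR : 1 ≤ R) :
    RI (dslope f z₀) (-R) R (-R) R = 0 := by
  have hG : DifferentiableOn ℂ (dslope f z₀) Eᶜ :=
    (Complex.differentiableOn_dslope (isOpen_compl_E.mem_nhds hz₀)).2 hf
  rw [RI_outer hG hR]
  obtain ⟨η, hη, hball⟩ := Metric.isOpen_iff.1 isOpen_compl_E z₀ hz₀
  -- constants
  set U : ℝ := u (((1 / 20 : ℝ) : ℂ) * I) with hU
  have hU0 : 0 ≤ U := hu.nonneg _ (upper_mem (by simp))
  set C : ℝ := (1 + U + ‖f z₀‖) * (2 / η) with hC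
  have key : ∀ᶠ n : ℕ in atTop, ‖RI (dslope f z₀) (0 - A 0) (0 + A 0) (-A 0) (A 0)‖ ≤
      (2:ℝ) ^ n * (8 * A n * (C * Real.exp (20 * (n + 1) ^ 2))) := by
    have hlim : Tendsto (fun n : ℕ => 2 * A n) atTop (𝓝 0) := by
      refine squeeze_zero (fun n => by have := d_pos (n + 1); unfold A; linarith) (fun n => ?_)
        (g := fun n : ℕ => 40 * (1 / 2 : ℝ) ^ (n + 1)) ?_
      · have := d_add_le 0 (n + 1)
        rw [zero_add, d_zero, one_mul] at this
        unfold A
        linarith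
      · rw [show (0:ℝ) = 40 * 0 by ring]
        apply Tendsto.const_mul
        exact (tendsto_pow_atTop_nhds_zero_of_lt_one (by norm_num) (by norm_num)).comp
          (tendsto_add_atTop_nat 1)
    filter_upwards [hlim.eventually (gt_mem_nhds (half_pos hη))] with n hn
    apply RI_levels hG n
    intro c hc
    have hdn := d_pos (n + 1)
    have hdd := d_succ_le n
    have hAn : 0 ≤ A n := by unfold A; linarith
    apply RI_square hAn
    intro z h1 h2
    have hcE : (c : ℂ) ∈ E := ⟨c, S_mem hc, rfl⟩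
    have hdist : η ≤ ‖(c:ℂ) - z₀‖ := by
      by_contra hlt
      push Not at hlt
      exact hball (by rwa [mem_ball, dist_eq_norm]) hcE
    have hzz : η / 2 ≤ ‖z - z₀‖ := by
      have h3 : ‖(c:ℂ) - z₀‖ ≤ ‖z - z₀‖ + ‖z - c‖ := by
        have : (c:ℂ) - z₀ = (z - z₀) - (z - c) := by ring
        rw [this]; exact norm_sub_le _ _
      linarith
    have hne : z ≠ z₀ := by
      rintro rfl
      rw [sub_self, norm_zero] at hzz
      linarith
    rw [dslope_of_ne _ hne, slope_def_module, norm_smul, norm_inv]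
    have hz1 : 20 * d (n + 1) ≤ ‖z - c‖ := h1
    have hz2 : ‖z - c‖ ≤ d n / 20 := by
      refine h2.trans ?_
      unfold A
      linarith
    have hzE : z ∈ Eᶜ := annulus_free hc (by linarith) (by linarith [d_pos n])
    have h5 := growth hu hc z hz1 hz2
    have h6 := hfu z hzE
    have h7 : 1 ≤ Real.exp (20 * ((n:ℝ) + 1) ^ 2) := Real.one_le_exp (by positivity)
    have h8 : ‖f z‖ ≤ 1 + u z := by
      nlinarith [sq_nonneg (‖f z‖ - 1), norm_nonneg (f z)]
    have h9 : ‖f z - f z₀‖ ≤ (1 + U + ‖f z₀‖) * Real.exp (20 * (n + 1) ^ 2) := by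
      refine (norm_sub_le _ _).trans ?_
      have h10 := norm_nonneg (f z₀)
      nlinarith
    have h11 : ‖z - z₀‖⁻¹ ≤ 2 / η := by
      rw [inv_le_comm₀ (by linarith) (by positivity), inv_div]
      exact hzz
    calc ‖z - z₀‖⁻¹ * ‖f z - f z₀‖ ≤ (2 / η) * ((1 + U + ‖f z₀‖) * Real.exp (20 * (n + 1) ^ 2)) := by
          gcongr
      _ = C * Real.exp (20 * (n + 1) ^ 2) := by rw [hC]; ring
  have h0 : ‖RI (dslope f z₀) (0 - A 0) (0 + A 0) (-A 0) (A 0)‖ ≤ 0 :=
    ge_of_tendsto (tendsto_small C) key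
  exact norm_le_zero_iff.1 h0

/-- the integral of `1 / z` over the boundary of a centred square has modulus at least `4` -/
lemma RI_inv {R : ℝ} (hR : 0 < R) : 4 ≤ ‖RI (fun z => z⁻¹) (-R) R (-R) R‖ := by
  have hc : ∀ σ : ℝ, σ ≠ 0 → Continuous (fun x : ℝ => ((x + σ * I : ℂ))⁻¹) := by
    intro σ hσ
    apply Continuous.inv₀ (by fun_prop)
    intro x h
    apply hσ
    have := congrArg Complex.im h
    simpa using this
  have hc' : ∀ σ : ℝ, σ ≠ 0 → Continuous (fun y : ℝ => ((σ + y * I : ℂ))⁻¹) := by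
    intro σ hσ
    apply Continuous.inv₀ (by fun_prop)
    intro x h
    apply hσ
    have := congrArg Complex.re h
    simpa using this
  have him : ∀ (g : ℝ → ℂ), Continuous g → (∫ x in (-R)..R, g x).im = ∫ x in (-R)..R, (g x).im := by
    intro g hg
    exact (Complex.imCLM.intervalIntegral_comp_comm (hg.intervalIntegrable _ _)).symm
  have hre : ∀ (g : ℝ → ℂ), Continuous g → (∫ x in (-R)..R, g x).re = ∫ x in (-R)..R, (g x).re := by
    intro g hg
    exact (Complex.reCLM.intervalIntegral_comp_comm (hg.intervalIntegrable _ _)).symm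
  have hcr : Continuous (fun x : ℝ => R / (x ^ 2 + R ^ 2)) := by
    apply Continuous.div continuous_const (by fun_prop)
    intro x; positivity
  have e : (RI (fun z => z⁻¹) (-R) R (-R) R).im = 4 * ∫ x in (-R)..R, R / (x ^ 2 + R ^ 2) := by
    unfold RI
    simp only [smul_eq_mul, Complex.sub_im, Complex.add_im, Complex.mul_im, Complex.I_re,
      Complex.I_im, zero_mul, one_mul, zero_add]
    rw [him _ (hc (-R) (by linarith)), him _ (hc R hR.ne'), hre _ (hc' R hR.ne'),
      hre _ (hc' (-R) (by linarith))]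
    have e1 : ∀ x : ℝ, (((x:ℂ) + ((-R : ℝ) : ℂ) * I)⁻¹).im = R / (x ^ 2 + R ^ 2) := by
      intro x
      rw [Complex.inv_im, Complex.normSq_apply]
      simp
      ring_nf
    have e2 : ∀ x : ℝ, (((x:ℂ) + (R : ℂ) * I)⁻¹).im = -(R / (x ^ 2 + R ^ 2)) := by
      intro x
      rw [Complex.inv_im, Complex.normSq_apply]
      simp
      ring_nf
    have e3 : ∀ x : ℝ, (((R:ℂ) + (x : ℂ) * I)⁻¹).re = R / (x ^ 2 + R ^ 2) := by
      intro x
      rw [Complex.inv_re, Complex.normSq_apply]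
      simp
      ring_nf
    have e4 : ∀ x : ℝ, ((((-R : ℝ):ℂ) + (x : ℂ) * I)⁻¹).re = -(R / (x ^ 2 + R ^ 2)) := by
      intro x
      rw [Complex.inv_re, Complex.normSq_apply]
      simp
      ring_nf
    simp_rw [e1, e2, e3, e4]
    rw [intervalIntegral.integral_neg]
    ring
  have h1 : (1:ℝ) ≤ ∫ x in (-R)..R, R / (x ^ 2 + R ^ 2) := by
    have h2 : ∫ x in (-R)..R, 1 / (2 * R) ≤ ∫ x in (-R)..R, R / (x ^ 2 + R ^ 2) := by
      apply intervalIntegral.integral_mono_on (by linarith) (by simp) (hcr.intervalIntegrable _ _)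
      intro x hx
      rw [div_le_div_iff₀ (by positivity) (by positivity)]
      have : x ^ 2 ≤ R ^ 2 := by
        apply sq_le_sq'
        · exact hx.1
        · exact hx.2
      nlinarith
    rw [intervalIntegral.integral_const, smul_eq_mul] at h2
    have h3 : (R - -R) * (1 / (2 * R)) = 1 := by field_simp; ring
    rw [h3] at h2
    exact h2
  calc (4:ℝ) ≤ |(RI (fun z => z⁻¹) (-R) R (-R) R).im| := by
        rw [e]; rw [abs_of_nonneg (by linarith)]; linarith
    _ ≤ _ := Complex.abs_im_le_norm _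

end Pool.Agent.L7h54.HN
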