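import Mathlib
import Pool.Agent.L7h54.HN.F

/-!
# The Hardy space of the complement of the Cantor set is trivial: conclusion
-/

set_option autoImplicit false

namespace Pool.Agent.L7h54.HN

open InnerProductSpace Metric Set Complex Topology MeasureTheory Filter

/-- Every holomorphic function off the Cantor set whose square has a harmonic majorant is constant. -/
theorem hardy_trivial {f : ℂ → ℂ} {u : ℂ → ℝ} (hf : DifferentiableOn ℂ f Eᶜ) (hu : Pos u)
    (hfu : ∀ z ∈ Eᶜ, ‖f z‖ ^ 2 ≤ u z) {z₀ z₁ : ℂ} (hz₀ : z₀ ∈ Eᶜ) (hz₁ : z₁ ∈ Eᶜ) :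
    f z₀ = f z₁ := by
  have h0E : (0:ℂ) ∈ E := ⟨0, zero_mem_Tail 0, by simp⟩
  have hG : ∀ {w : ℂ}, w ∈ Eᶜ → ContinuousOn (dslope f w) Eᶜ := fun {w} hw =>
    ((Complex.differentiableOn_dslope (isOpen_compl_E.mem_nhds hw)).2 hf).continuousOn
  have hinv : ContinuousOn (fun z : ℂ => z⁻¹) Eᶜ :=
    continuousOn_id.inv₀ (fun z hz h => hz (by simp only [id] at h; rw [h]; exact h0E))
  set κ : ℂ := f z₀ - f z₁ with hκ
  set V : ℝ := u (8 * I) with hV
  set B : ℝ := ‖z₀ - z₁‖ + ‖f z₀‖ * ‖z₀‖ + ‖f z₁‖ * ‖z₁‖ with hB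
  have hV0 : 0 ≤ V := hu.nonneg _ (upper_mem (by simp))
  have hB0 : 0 ≤ B := by positivity
  have key : ∀ᶠ R : ℝ in atTop, 4 * ‖κ‖ ≤ 32 * B * (1 / R) +
      32 * (8 * V) * ‖z₀ - z₁‖ * ((Real.log R) ^ 2 / R) := by
    filter_upwards [eventually_ge_atTop (Real.exp 24), eventually_ge_atTop (2 * ‖z₀‖ + 1),
      eventually_ge_atTop (2 * ‖z₁‖ + 1), eventually_ge_atTop (2:ℝ)] with R h1 h2 h3 h4
    have hR1 : 1 ≤ R := by linarith
    have hR0 : 0 < R := by linarith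
    have e := RI_comb (hG hz₀) (hG hz₁) hinv κ hR1
    rw [RI_slope hf hu hfu hz₀ hR1, RI_slope hf hu hfu hz₁ hR1, sub_zero, zero_add] at e
    have hb : ‖RI (fun z => dslope f z₀ z - dslope f z₁ z + κ * z⁻¹) (0 - R) (0 + R) (-R) R‖ ≤
        8 * R * (4 / R ^ 2 * (B + 8 * (Real.log R) ^ 2 * V * ‖z₀ - z₁‖)) := by
      apply RI_square hR0.le
      intro z hz1 hz2
      rw [Complex.ofReal_zero, sub_zero] at hz1 hz2
      have hzE : z ∈ Eᶜ := by
        intro hE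
        obtain ⟨h5, h6⟩ := mem_E.1 hE
        have h7 := mem_Tail_bounds h6
        have h8 : z = ((z.re : ℝ) : ℂ) := by apply Complex.ext <;> simp [h5]
        rw [h8, Complex.norm_real, Real.norm_eq_abs, abs_of_nonneg h7.1] at hz1
        have := d_succ_le 0
        rw [d_zero] at this
        linarith [h7.2, d_pos 1]
      have n0 : R / 2 ≤ ‖z - z₀‖ := by
        have := norm_sub_norm_le z z₀
        linarith
      have n1 : R / 2 ≤ ‖z - z₁‖ := by
        have := norm_sub_norm_le z z₁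
        linarith
      have p0 : z - z₀ ≠ 0 := norm_pos_iff.1 (by linarith)
      have p1 : z - z₁ ≠ 0 := norm_pos_iff.1 (by linarith)
      have p2 : z ≠ 0 := norm_pos_iff.1 (by linarith)
      have q0 : z ≠ z₀ := sub_ne_zero.1 p0
      have q1 : z ≠ z₁ := sub_ne_zero.1 p1
      rw [dslope_of_ne _ q0, dslope_of_ne _ q1, slope_def_module, slope_def_module, smul_eq_mul,
        smul_eq_mul]
      have e1 : (z - z₀)⁻¹ * (f z - f z₀) - (z - z₁)⁻¹ * (f z - f z₁) + κ * z⁻¹ =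
          f z * (z₀ - z₁) * ((z - z₀)⁻¹ * (z - z₁)⁻¹) - f z₀ * z₀ * ((z - z₀)⁻¹ * z⁻¹) +
            f z₁ * z₁ * ((z - z₁)⁻¹ * z⁻¹) := by
        rw [hκ]
        field_simp
        ring
      rw [e1]
      have i0 : ‖(z - z₀)⁻¹‖ ≤ 2 / R := by
        rw [norm_inv, inv_le_comm₀ (by linarith) (by positivity), inv_div]; exact n0
      have i1 : ‖(z - z₁)⁻¹‖ ≤ 2 / R := by
        rw [norm_inv, inv_le_comm₀ (by linarith) (by positivity), inv_div]; exact n1
      have i2 : ‖z⁻¹‖ ≤ 2 / R := by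
        rw [norm_inv, inv_le_comm₀ (by linarith) (by positivity), inv_div]; linarith
      have hpr : ∀ a b : ℂ, ‖a‖ ≤ 2 / R → ‖b‖ ≤ 2 / R → ‖a * b‖ ≤ 4 / R ^ 2 := by
        intro a b ha hb
        rw [norm_mul]
        calc ‖a‖ * ‖b‖ ≤ (2 / R) * (2 / R) := by gcongr
          _ = 4 / R ^ 2 := by field_simp; norm_num
      have j0 := hpr _ _ i0 i1
      have j1 := hpr _ _ i0 i2
      have j2 := hpr _ _ i1 i2
      have hgr := growth_infty hu h1 hz1 hz2
      have hff := hfu z hzE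
      have hfz : ‖f z‖ ≤ 1 + 8 * (Real.log R) ^ 2 * V := by
        nlinarith [sq_nonneg (‖f z‖ - 1), norm_nonneg (f z)]
      have hR2 : 0 ≤ 4 / R ^ 2 := by positivity
      calc ‖f z * (z₀ - z₁) * ((z - z₀)⁻¹ * (z - z₁)⁻¹) - f z₀ * z₀ * ((z - z₀)⁻¹ * z⁻¹) +
            f z₁ * z₁ * ((z - z₁)⁻¹ * z⁻¹)‖
          ≤ ‖f z * (z₀ - z₁) * ((z - z₀)⁻¹ * (z - z₁)⁻¹)‖ + ‖f z₀ * z₀ * ((z - z₀)⁻¹ * z⁻¹)‖ +
            ‖f z₁ * z₁ * ((z - z₁)⁻¹ * z⁻¹)‖ :=
            (norm_add_le _ _).trans (add_le_add (norm_sub_le _ _) le_rfl)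
        _ ≤ (1 + 8 * (Real.log R) ^ 2 * V) * ‖z₀ - z₁‖ * (4 / R ^ 2) +
            ‖f z₀‖ * ‖z₀‖ * (4 / R ^ 2) + ‖f z₁‖ * ‖z₁‖ * (4 / R ^ 2) := by
            rw [norm_mul (f z * (z₀ - z₁)), norm_mul (f z₀ * z₀), norm_mul (f z₁ * z₁),
              norm_mul (f z), norm_mul (f z₀), norm_mul (f z₁)]
            gcongr
        _ = 4 / R ^ 2 * (B + 8 * (Real.log R) ^ 2 * V * ‖z₀ - z₁‖) := by rw [hB]; ring
    rw [zero_sub, zero_add, e, norm_mul] at hb
    have h5 := RI_inv hR0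
    have h6 : 4 * ‖κ‖ ≤ ‖κ‖ * ‖RI (fun z => z⁻¹) (-R) R (-R) R‖ := by
      rw [mul_comm]
      exact mul_le_mul_of_nonneg_left h5 (norm_nonneg _)
    refine (h6.trans hb).trans (le_of_eq ?_)
    field_simp
    ring
  have lim : Tendsto (fun R : ℝ => 32 * B * (1 / R) +
      32 * (8 * V) * ‖z₀ - z₁‖ * ((Real.log R) ^ 2 / R)) atTop (𝓝 0) := by
    have l1 : Tendsto (fun R : ℝ => 1 / R) atTop (𝓝 0) := by
      simpa using tendsto_inv_atTop_zero (𝕜 := ℝ)
    have l2 : Tendsto (fun R : ℝ => (Real.log R) ^ 2 / R) atTop (𝓝 0) :=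
      (Real.isLittleO_pow_log_id_atTop (n := 2)).tendsto_div_nhds_zero
    have := (l1.const_mul (32 * B)).add (l2.const_mul (32 * (8 * V) * ‖z₀ - z₁‖))
    simpa using this
  have h7 : 4 * ‖κ‖ ≤ 0 := ge_of_tendsto lim key
  have h8 : κ = 0 := norm_le_zero_iff.1 (by linarith)
  exact sub_eq_zero.1 h8

/-- the complement of the Cantor set is connected -/
theorem isConnected_compl : IsConnected Eᶜ := by
  have hneg : ((-1 : ℝ) : ℂ) ∈ Eᶜ := by
    intro h
    have := (mem_Tail_bounds (mem_E.1 h).2).1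
    simp at this
    linarith
  set U : Set ℂ := {z | 0 < z.im} ∪ ({z | z.im = 0} ∩ Eᶜ) with hU
  set L : Set ℂ := {z | z.im < 0} ∪ {((-1 : ℝ) : ℂ)} with hL
  have cU : IsPreconnected U := by
    have h1 : IsPreconnected {z : ℂ | 0 < z.im} := (convex_halfSpace_im_gt 0).isPreconnected
    apply h1.subset_closure subset_union_left
    rintro z (hz | hz)
    · exact subset_closure hz
    · have h2 : closure {z : ℂ | 0 < z.im} = {z : ℂ | 0 ≤ z.im} := Complex.closure_setOf_lt_im 0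
      rw [h2]
      exact hz.1.ge
  have cL : IsPreconnected L := by
    have h1 : IsPreconnected {z : ℂ | z.im < 0} := (convex_halfSpace_im_lt 0).isPreconnected
    apply h1.subset_closure subset_union_left
    rintro z (hz | hz)
    · exact subset_closure hz
    · have h2 : closure {z : ℂ | z.im < 0} = {z : ℂ | z.im ≤ 0} := Complex.closure_setOf_im_lt 0
      rw [h2]
      rw [mem_singleton_iff.1 hz]
      simp
  have e : (Eᶜ : Set ℂ) = U ∪ L := by
    ext z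
    constructor
    · intro hz
      rcases lt_trichotomy z.im 0 with h | h | h
      · exact Or.inr (Or.inl h)
      · exact Or.inl (Or.inr ⟨h, hz⟩)
      · exact Or.inl (Or.inl h)
    · rintro ((h | h) | (h | h))
      · exact upper_mem h
      · exact h.2
      · exact fun hE => (ne_of_lt h) (mem_E.1 hE).1
      · rw [mem_singleton_iff.1 h]; exact hneg
  refine ⟨⟨_, hneg⟩, ?_⟩
  rw [e]
  exact cU.union ((-1 : ℝ) : ℂ) (Or.inr ⟨by simp, hneg⟩) (Or.inr rfl) cL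

end Pool.Agent.L7h54.HN
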