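import Mathlib
import Pool.Agent.L7h54.HN.B

/-!
# A measure of finite logarithmic energy on the Cantor set
-/

set_option autoImplicit false

namespace Pool.Agent.L7h54.HN

open Metric Set Topology MeasureTheory Filter

lemma T_sep (n : ℕ) : ∀ (k : ℕ) (ω ω' : ℕ → Bool), (∀ i < n, ω i = ω' i) → ω n ≠ ω' n →
    d (k + n + 1) / 2 ≤ |T k ω - T k ω'| := by
  induction n with
  | zero =>
    intro k ω ω' _ h
    rw [T_succ k ω, T_succ k ω']
    have h1 := T_nonneg (k + 1) (fun i => ω (i + 1))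
    have h2 := T_le (k + 1) (fun i => ω (i + 1))
    have h3 := T_nonneg (k + 1) (fun i => ω' (i + 1))
    have h4 := T_le (k + 1) (fun i => ω' (i + 1))
    have h5 := d_succ_le (k + 1)
    have h6 := d_pos (k + 1)
    have h7 := d_pos (k + 1 + 1)
    rw [add_zero]
    cases ha : ω 0 <;> cases hb : ω' 0
    · exact absurd (ha.trans hb.symm) h
    · simp only [Bool.false_eq_true, if_false, if_true]
      rw [abs_sub_comm]
      refine le_trans ?_ (le_abs_self _)
      linarith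
    · simp only [Bool.false_eq_true, if_false, if_true]
      refine le_trans ?_ (le_abs_self _)
      linarith
    · exact absurd (ha.trans hb.symm) h
  | succ n ih =>
    intro k ω ω' h1 h2
    rw [T_succ k ω, T_succ k ω', h1 0 (Nat.succ_pos n), add_sub_add_left_eq_sub]
    have := ih (k + 1) (fun i => ω (i + 1)) (fun i => ω' (i + 1))
      (fun i hi => h1 (i + 1) (Nat.succ_lt_succ hi)) h2
    rw [show k + (n + 1) + 1 = k + 1 + n + 1 by ring]
    exact this

/-- the binary digits -/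
noncomputable def digit (t : ℝ) (i : ℕ) : Bool := decide (⌊(2:ℝ) ^ (i + 1) * t⌋ % 2 = 1)

lemma floor_two_mul (x : ℝ) : ⌊2 * x⌋ = 2 * ⌊x⌋ + ⌊2 * x⌋ % 2 := by
  have h1 := Int.floor_le x
  have h2 := Int.lt_floor_add_one x
  have h3 : 2 * ⌊x⌋ ≤ ⌊2 * x⌋ := by
    apply Int.le_floor.2
    push_cast
    linarith
  have h4 : ⌊2 * x⌋ < 2 * ⌊x⌋ + 2 := by
    apply Int.floor_lt.2
    push_cast
    linarith
  omega

lemma floor_eq_of_digits {t s : ℝ} (ht : t ∈ Ico (0:ℝ) 1) (hs : s ∈ Ico (0:ℝ) 1) (n : ℕ)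
    (h : ∀ i < n, digit t i = digit s i) : ⌊(2:ℝ) ^ n * t⌋ = ⌊(2:ℝ) ^ n * s⌋ := by
  induction n with
  | zero =>
    rw [pow_zero, one_mul, one_mul, Int.floor_eq_zero_iff.2 ht, Int.floor_eq_zero_iff.2 hs]
  | succ n ih =>
    have h1 := ih (fun i hi => h i (Nat.lt_succ_of_lt hi))
    have h2 := h n (Nat.lt_succ_self n)
    unfold digit at h2
    rw [decide_eq_decide] at h2
    have e1 := floor_two_mul ((2:ℝ) ^ n * t)
    have e2 := floor_two_mul ((2:ℝ) ^ n * s)
    rw [← mul_assoc, ← pow_succ'] at e1 e2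
    have m1 := Int.emod_two_eq_zero_or_one ⌊(2:ℝ) ^ (n + 1) * t⌋
    have m2 := Int.emod_two_eq_zero_or_one ⌊(2:ℝ) ^ (n + 1) * s⌋
    omega

lemma abs_lt_of_digits {t s : ℝ} (ht : t ∈ Ico (0:ℝ) 1) (hs : s ∈ Ico (0:ℝ) 1) (n : ℕ)
    (h : ∀ i < n, digit t i = digit s i) : |t - s| * 2 ^ n < 1 := by
  have h1 := floor_eq_of_digits ht hs n h
  have h2 := Int.abs_sub_lt_one_of_floor_eq_floor h1
  rw [← mul_sub, abs_mul, abs_of_pos (by positivity)] at h2
  rwa [mul_comm]

lemma exists_first {t s : ℝ} (ht : t ∈ Ico (0:ℝ) 1) (hs : s ∈ Ico (0:ℝ) 1) (hne : t ≠ s) :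
    ∃ n, (∀ i < n, digit t i = digit s i) ∧ digit t n ≠ digit s n := by
  have h1 : ∃ n, digit t n ≠ digit s n := by
    by_contra hcon
    push Not at hcon
    have hpos : 0 < |t - s| := abs_pos.2 (sub_ne_zero.2 hne)
    obtain ⟨n, hn⟩ := pow_unbounded_of_one_lt (1 / |t - s|) (one_lt_two : (1:ℝ) < 2)
    have h2 := abs_lt_of_digits ht hs n (fun i _ => hcon i)
    rw [div_lt_iff₀ hpos] at hn
    linarith
  classical
  refine ⟨Nat.find h1, fun i hi => ?_, Nat.find_spec h1⟩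
  have := Nat.find_min h1 hi
  push Not at this
  exact this

/-- the point of the Cantor set with given binary expansion -/
noncomputable def X (t : ℝ) : ℝ := T 0 (digit t)

lemma X_mem (t : ℝ) : X t ∈ Tail 0 := ⟨_, rfl⟩

lemma measurable_X : Measurable X := by
  have h1 : Measurable (fun t : ℝ => digit t) := by
    rw [measurable_pi_iff]
    intro i
    have h2 : Measurable (fun t : ℝ => ⌊(2:ℝ) ^ (i + 1) * t⌋) :=
      Int.measurable_floor.comp (measurable_const.mul measurable_id)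
    have h3 : Measurable (fun k : ℤ => decide (k % 2 = 1)) := measurable_of_countable _
    exact h3.comp h2
  exact (continuous_T 0).measurable.comp h1

lemma quartic (n : ℕ) : ((n:ℝ) + 1) ^ 4 ≤ 50 * 2 ^ n := by
  rcases lt_or_ge n 6 with h | h
  · interval_cases n <;> norm_num
  · induction n, h using Nat.le_induction with
    | base => norm_num
    | succ n hn ih =>
      have h6 : (6:ℝ) ≤ n := by exact_mod_cast hn
      have h1 : (((n + 1 : ℕ) : ℝ) + 1) ^ 4 ≤ 2 * ((n:ℝ) + 1) ^ 4 := by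
        push_cast
        have e : ((n:ℝ) + 1 + 1) ^ 4 = ((n:ℝ) + 1) ^ 4 + 4 * (n + 1) ^ 3 + 6 * (n + 1) ^ 2 +
          4 * (n + 1) + 1 := by ring
        rw [e]
        have h7 : (7:ℝ) ≤ n + 1 := by linarith
        set y : ℝ := n + 1
        have : 4 * y ^ 3 + 6 * y ^ 2 + 4 * y + 1 ≤ y ^ 4 := by
          have a1 : 7 * y ^ 3 ≤ y ^ 4 := by nlinarith [pow_nonneg (by linarith : (0:ℝ) ≤ y) 3]
          have a2 : 7 * y ^ 2 ≤ y ^ 3 := by nlinarith [pow_nonneg (by linarith : (0:ℝ) ≤ y) 2]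
          nlinarith
        linarith
      rw [pow_succ (2:ℝ) n]
      linarith

/-- the bound for the logarithmic kernel -/
lemma log_bound {t s : ℝ} (ht : t ∈ Ico (0:ℝ) 1) (hs : s ∈ Ico (0:ℝ) 1) (hne : t ≠ s) :
    |Real.log (|X t - X s|)| ≤ 300 * |t - s| ^ (-(1/2) : ℝ) := by
  obtain ⟨n, h1, h2⟩ := exists_first ht hs hne
  have h3 := T_sep n 0 (digit t) (digit s) h1 h2
  rw [zero_add] at h3
  have h4 := abs_lt_of_digits ht hs n h1
  have hts : 0 < |t - s| := abs_pos.2 (sub_ne_zero.2 hne)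
  have hd := d_pos (n + 1)
  have hd0 := d_succ_le 0
  rw [d_zero] at hd0
  have hX : 0 < |X t - X s| := lt_of_lt_of_le (by positivity) h3
  have hX1 : |X t - X s| ≤ 1 := by
    have a1 := T_nonneg 0 (digit t)
    have a2 := T_le 0 (digit t)
    have a3 := T_nonneg 0 (digit s)
    have a4 := T_le 0 (digit s)
    unfold X
    rw [abs_le]
    constructor <;> linarith
  rw [abs_of_nonpos (Real.log_nonpos hX.le hX1)]
  have h5 : Real.log (d (n + 1) / 2) ≤ Real.log (|X t - X s|) := Real.log_le_log (by positivity) h3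
  have h6 : Real.log (d (n + 1) / 2) = -(40 * ((n:ℝ) + 1) ^ 2) - Real.log 2 := by
    rw [Real.log_div hd.ne' (by norm_num), d, Real.log_exp]
    push_cast
    ring
  have h7 := Real.log_two_lt_d9
  have hn : (0:ℝ) ≤ n := n.cast_nonneg
  have h8 : -Real.log (|X t - X s|) ≤ 41 * ((n:ℝ) + 1) ^ 2 := by
    nlinarith
  refine h8.trans ?_
  have h9 : (|t - s| ^ (-(1/2) : ℝ)) ^ 2 = 1 / |t - s| := by
    rw [← Real.rpow_natCast, ← Real.rpow_mul hts.le]
    norm_num
    rw [Real.rpow_neg_one]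
  have h10 : (2:ℝ) ^ n ≤ 1 / |t - s| := by
    rw [le_div_iff₀ hts]
    linarith
  have h11 : 0 ≤ |t - s| ^ (-(1/2) : ℝ) := Real.rpow_nonneg hts.le _
  apply le_of_sq_le_sq _ (by positivity)
  have h12 := quartic n
  calc (41 * ((n:ℝ) + 1) ^ 2) ^ 2 = 1681 * ((n:ℝ) + 1) ^ 4 := by ring
    _ ≤ 1681 * (50 * 2 ^ n) := by linarith
    _ ≤ 90000 * (1 / |t - s|) := by
        have : (0:ℝ) < 2 ^ n := by positivity
        linarith
    _ = (300 * |t - s| ^ (-(1/2) : ℝ)) ^ 2 := by rw [mul_pow, h9]; norm_num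

end Pool.Agent.L7h54.HN
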