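import Mathlib
import Pool.Agent.L7h54.HN.M

/-!
# A measure of finite logarithmic energy on the Cantor set: conclusion
-/

set_option autoImplicit false

namespace Pool.Agent.L7h54.HN

open Metric Set Topology MeasureTheory Filter

/-- Lebesgue measure on `[0,1)` -/
noncomputable def lam : Measure ℝ := volume.restrict (Ico (0:ℝ) 1)

instance : IsProbabilityMeasure lam := ⟨by simp [lam]⟩

/-- the parametrisation of the Cantor set -/
noncomputable def XC (t : ℝ) : ℂ := (X t : ℂ)

lemma measurable_XC : Measurable XC := Complex.measurable_ofReal.comp measurable_X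

/-- the measure -/
noncomputable def mu : Measure ℂ := lam.map XC

instance : IsProbabilityMeasure mu := Measure.isProbabilityMeasure_map measurable_XC.aemeasurable

lemma mu_compl : mu Eᶜ = 0 := by
  rw [mu, Measure.map_apply measurable_XC isOpen_compl_E.measurableSet]
  have : XC ⁻¹' Eᶜ = ∅ := by
    ext t
    simp only [mem_preimage, mem_compl_iff, mem_empty_iff_false, iff_false, not_not]
    exact ⟨X t, X_mem t, rfl⟩
  rw [this, measure_empty]

lemma X_inj {t s : ℝ} (ht : t ∈ Ico (0:ℝ) 1) (hs : s ∈ Ico (0:ℝ) 1) (h : X t = X s) : t = s := by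
  by_contra hne
  obtain ⟨n, h1, h2⟩ := exists_first ht hs hne
  have h3 := T_sep n 0 (digit t) (digit s) h1 h2
  have h4 : T 0 (digit t) = T 0 (digit s) := h
  rw [h4, sub_self, abs_zero] at h3
  have := d_pos (0 + n + 1)
  linarith

theorem noAtoms_mu : NullSingletonClass mu := by
  constructor
  intro z
  rw [mu, Measure.map_apply measurable_XC (measurableSet_singleton z), lam,
    Measure.restrict_apply (measurable_XC (measurableSet_singleton z))]
  apply Set.Subsingleton.measure_zero
  rintro t ⟨h1, h2⟩ s ⟨h3, h4⟩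
  apply X_inj h2 h4
  rw [mem_preimage, mem_singleton_iff] at h1 h3
  have := h1.trans h3.symm
  exact Complex.ofReal_injective this

lemma integrable_kernel : Integrable (fun p : ℝ × ℝ => |p.1 - p.2| ^ (-(1/2) : ℝ)) (lam.prod lam) := by
  have hg : Integrable (fun x : ℝ => (Icc (-1:ℝ) 1).indicator (fun x => |x| ^ (-(1/2) : ℝ)) x) := by
    rw [integrable_indicator_iff measurableSet_Icc]
    have h1 : IntervalIntegrable (fun x : ℝ => x ^ (-(1/2) : ℝ)) volume 0 1 :=
      intervalIntegral.intervalIntegrable_rpow' (by norm_num)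
    have h2 : IntegrableOn (fun x : ℝ => |x| ^ (-(1/2) : ℝ)) (Icc 0 1) := by
      rw [intervalIntegrable_iff_integrableOn_Icc_of_le zero_le_one] at h1
      refine h1.congr_fun (fun x hx => ?_) measurableSet_Icc
      simp only
      rw [abs_of_nonneg hx.1]
    have h3 : IntegrableOn (fun x : ℝ => |x| ^ (-(1/2) : ℝ)) (Icc (-1) 0) := by
      have h4 := (Measure.measurePreserving_neg (volume : Measure ℝ)).integrableOn_comp_preimage
        (Homeomorph.neg ℝ).measurableEmbedding (f := fun x : ℝ => |x| ^ (-(1/2) : ℝ)) (s := Icc 0 1)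
      have h5 : (fun x : ℝ => |x| ^ (-(1/2) : ℝ)) ∘ Neg.neg = fun x : ℝ => |x| ^ (-(1/2) : ℝ) := by
        ext x
        simp only [Function.comp, abs_neg]
      have h6 : Neg.neg ⁻¹' (Icc (0:ℝ) 1) = Icc (-1) 0 := by
        ext x
        simp only [mem_preimage, mem_Icc]
        constructor <;> rintro ⟨a, b⟩ <;> constructor <;> linarith
      rw [h5, h6] at h4
      exact h4.2 h2
    have h7 : Icc (-1:ℝ) 1 = Icc (-1) 0 ∪ Icc 0 1 := (Icc_union_Icc_eq_Icc (by norm_num) zero_le_one).symm
    rw [h7]
    exact h3.union h2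
  have hf : Integrable (fun x : ℝ => (Ico (0:ℝ) 1).indicator (fun _ => (1:ℝ)) x) := by
    rw [integrable_indicator_iff measurableSet_Ico]
    exact integrableOn_const (by simp)
  have h8 := hf.convolution_integrand (ContinuousLinearMap.mul ℝ ℝ) hg (μ := volume) (ν := volume)
  have h9 : lam.prod lam = ((volume : Measure ℝ).prod (volume : Measure ℝ)).restrict
      (Ico (0:ℝ) 1 ×ˢ Ico (0:ℝ) 1) := by
    rw [lam, Measure.prod_restrict]
  rw [h9]
  refine (h8.restrict (s := Ico (0:ℝ) 1 ×ˢ Ico (0:ℝ) 1)).congr ?_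
  rw [EventuallyEq, ae_restrict_iff' (measurableSet_Ico.prod measurableSet_Ico)]
  refine Eventually.of_forall (fun p hp => ?_)
  obtain ⟨h1, h2⟩ := hp
  simp only [ContinuousLinearMap.mul_apply']
  rw [indicator_of_mem h2, indicator_of_mem, one_mul]
  constructor <;> linarith [h1.1, h1.2, h2.1, h2.2]

lemma integrable_log : Integrable (fun p : ℂ × ℂ => Real.log ‖p.1 - p.2‖) (mu.prod mu) := by
  have h1 : mu.prod mu = (lam.prod lam).map (Prod.map XC XC) := by
    rw [mu, Measure.map_prod_map _ _ measurable_XC measurable_XC]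
  have hm : Measurable (fun p : ℂ × ℂ => Real.log ‖p.1 - p.2‖) :=
    Real.measurable_log.comp (measurable_fst.sub measurable_snd).norm
  rw [h1, integrable_map_measure hm.aestronglyMeasurable
    (measurable_XC.prodMap measurable_XC).aemeasurable]
  have hdiag : ∀ᵐ p : ℝ × ℝ ∂(lam.prod lam), p.1 ≠ p.2 := by
    rw [Measure.ae_prod_iff_ae_ae]
    · refine Eventually.of_forall (fun t => ?_)
      have : lam {s | ¬ t ≠ s} = 0 := by
        have e : {s : ℝ | ¬ t ≠ s} = {t} := by ext s; simp [eq_comm]
        rw [e]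
        have : lam ≤ volume := Measure.restrict_le_self
        exact le_antisymm ((this _).trans (by simp)) bot_le
      exact this
    · exact (measurableSet_eq_fun measurable_fst measurable_snd).compl
  have hmem : ∀ᵐ p : ℝ × ℝ ∂(lam.prod lam), p ∈ Ico (0:ℝ) 1 ×ˢ Ico (0:ℝ) 1 := by
    have h9 : lam.prod lam = ((volume : Measure ℝ).prod (volume : Measure ℝ)).restrict
        (Ico (0:ℝ) 1 ×ˢ Ico (0:ℝ) 1) := by
      rw [lam, Measure.prod_restrict]
    rw [h9]
    exact ae_restrict_mem (measurableSet_Ico.prod measurableSet_Ico)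
  refine (integrable_kernel.const_mul 300).mono'
    (hm.comp (measurable_XC.prodMap measurable_XC)).aestronglyMeasurable ?_
  filter_upwards [hdiag, hmem] with p hp1 hp2
  simp only [Function.comp, Prod.map]
  have e : ‖XC p.1 - XC p.2‖ = |X p.1 - X p.2| := by
    rw [XC, XC, ← Complex.ofReal_sub, Complex.norm_real, Real.norm_eq_abs]
  rw [e, Real.norm_eq_abs]
  exact log_bound hp2.1 hp2.2 hp1

end Pool.Agent.L7h54.HN
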